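import Pool.Agent.Y382.NCH.Fin
import Pool.Agent.Y412.NCH.Com
import Pool.Agent.Y662.NCH.Nec
import Pool.Agent.Y435.NCH.SEC
import Pool.Agent.Y528.NCH.Ind
import Pool.Agent.Y484.NCH.CNT
import Pool.Agent.Y151.NCH.SQU

/-!
# Which symbols can be repeated and missing in a chain of rank `n - 1`

In a chain of rank `n - 1` of the Cayley table of a group `G` of order `n` one symbol `b` is missing, one symbol `a`
occurs twice and all other symbols occur once. The product of all symbols in the abelianisation shows that `a b⁻¹` lies
in the commutator subgroup `G'` (if `G` has a transversal). We prove that for finite (solvable) groups of odd order this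
is the only restriction: every pair `a ≠ b` with `a b⁻¹ ∈ G'` occurs. More generally the property passes from a normal
subgroup `N` to `G` whenever `G / N` is solvable of odd order; it holds for abelian groups with a transversal, for
example for `B × B`, so that many groups of even order are included (the smallest is the alternating group of order 12).

Proof. Let `G / M` be cyclic of odd order `p`, generated by `g M`. With `X_0 = 1`, `X_k = g t g^(k-1)`,
`Y_1 = t⁻¹ g^(1-p)`, `Y_k = g^(k-p)`, `t ∈ M`, one has `X_k Y_(k+2) = X_(k+1) Y_(k+1)`, and switching the cells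
`(X_k, Y_k)` to `(X_k, Y_(k+2))` in a transversal of `G` containing them replaces the symbol `1` by
`g [t, g^(p-2)] g⁻¹`. The remaining cells of `M` are then replaced by those of a chain of `M` through the cell `(1, 1)`,
in which the symbol `g [t, g^(p-2)] g⁻¹` is missing. Since `G' = {[t, h] d : t ∈ M, d ∈ M'}`, `h = g^(p-2)`, all
elements of `G'` are reached. The parts were proved by helper412 (commutators), helper662 (necessity), helper435
(sections), helper528 (induction), helper484 (counting), helper151 (transversals of `B × B`) and helper382.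
-/

set_option autoImplicit false

namespace Pool.Agent.Results.MP_053bca_co.RepeatedAndMissing

universe u

/-- In the chain of cells `(x, θ x)` of the Cayley table of `G` the symbol `b` does not occur, the symbol `a` occurs
exactly twice and every other symbol occurs exactly once. -/
def RepeatedMissing {G : Type u} [Group G] (θ : Equiv.Perm G) (a b : G) : Prop :=
  {x : G | x * θ x = b}.ncard = 0 ∧ {x : G | x * θ x = a}.ncard = 2 ∧
    ∀ s : G, s ≠ a → s ≠ b → {x : G | x * θ x = s}.ncard = 1

/-- The chain of cells `(x, θ x)` is a transversal. -/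
def IsTransversal {G : Type u} [Group G] (θ : Equiv.Perm G) : Prop := Function.Bijective (fun x : G => x * θ x)

/-- The Cayley table of `G` has a transversal, and it has a chain in which `b` is missing, `a` occurs twice and all other
symbols occur once if and only if `a ≠ b` and `a b⁻¹` is in the commutator subgroup. -/
def AllPairs (G : Type u) [Group G] : Prop :=
  (∃ θ : Equiv.Perm G, IsTransversal θ) ∧
    ∀ a b : G, (∃ θ : Equiv.Perm G, RepeatedMissing θ a b) ↔ a ≠ b ∧ a * b⁻¹ ∈ commutator G

open Pool.Agent.Y382.NCH

theorem ne_of {G : Type u} [Group G] (θ : Equiv.Perm G) (a b : G) (h : RepeatedMissing θ a b) : a ≠ b := by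
  rintro rfl
  obtain ⟨h1, h2, -⟩ := h
  rw [h1] at h2
  exact absurd h2 (by norm_num)

theorem near_iff {G : Type u} [Group G] [Finite G] (a b : G) (hab : a ≠ b) :
    Near G a b ↔ ∃ θ : Equiv.Perm G, RepeatedMissing θ a b := by
  classical
  rw [Pool.Agent.Y484.NCH.t_CNT G a b hab]
  constructor
  · rintro ⟨θ, h⟩
    refine ⟨θ, ?_, ?_, ?_⟩
    · rw [h, if_pos rfl]
    · rw [h, if_neg hab, if_pos rfl]
    · intro s h1 h2
      rw [h, if_neg h2, if_neg h1]
  · rintro ⟨θ, h1, h2, h3⟩
    refine ⟨θ, fun s => ?_⟩
    by_cases hb : s = b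
    · rw [if_pos hb, hb, h1]
    · by_cases ha : s = a
      · rw [if_neg hb, if_pos ha, ha, h2]
      · rw [if_neg hb, if_neg ha, h3 s ha hb]

theorem allPairs_iff {G : Type u} [Group G] [Finite G] : AllPairs G ↔ Full G := by
  constructor
  · rintro ⟨h1, h2⟩ a b hab
    by_cases h : a = b
    · subst h
      have h3 := (Pool.Agent.Y484.NCH.t_TRV G).2 h1
      have := Pool.Agent.Y412.NCH.t_TRA G 1 1 a 1 h3
      simpa using this
    · exact (near_iff a b h).2 ((h2 a b).2 ⟨h, hab⟩)
  · intro h
    have h1 : Near G 1 1 := h 1 1 (by simp [Subgroup.one_mem])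
    refine ⟨(Pool.Agent.Y484.NCH.t_TRV G).1 h1, fun a b => ⟨?_, ?_⟩⟩
    · rintro ⟨θ, hθ⟩
      have hne := ne_of θ a b hθ
      exact ⟨hne, Pool.Agent.Y662.NCH.t_NEC G a b h1 ((near_iff a b hne).2 ⟨θ, hθ⟩)⟩
    · rintro ⟨hne, hab⟩
      exact (near_iff a b hne).1 (h a b hab)

theorem ind : S_IND.{u} :=
  Pool.Agent.Y528.NCH.t_IND (step Pool.Agent.Y412.NCH.t_COM Pool.Agent.Y412.NCH.t_TRA Pool.Agent.Y435.NCH.t_SEC)

theorem abelian (B : Type u) [CommGroup B] [Finite B] (h : ∃ θ : Equiv.Perm B, IsTransversal θ) : AllPairs B := by
  rw [allPairs_iff]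
  intro a b hab
  have h0 : commutator B = ⊥ := by
    rw [commutator_def, Subgroup.commutator_eq_bot_iff_le_centralizer]
    intro x _
    rw [Subgroup.mem_centralizer_iff]
    intro y _
    exact mul_comm y x
  rw [h0, Subgroup.mem_bot] at hab
  have h1 : a = b := mul_inv_eq_one.1 hab
  subst h1
  have h3 := (Pool.Agent.Y484.NCH.t_TRV B).2 h
  have := Pool.Agent.Y412.NCH.t_TRA B 1 1 a 1 h3
  simpa using this

/-- **Theorem.** (1) Let `G` be a finite solvable group of odd order (by the theorem of Feit and Thompson, any group of
odd order). For all `a, b` there is a chain in the Cayley table of `G` in which `b` is missing, `a` occurs exactly twice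
and all other symbols occur exactly once, if and only if `a ≠ b` and `a b⁻¹` lies in the commutator subgroup.
(2) More generally, this property (together with the existence of a transversal) passes from a normal subgroup `N` of a
finite group `G` to `G` whenever `G / N` is solvable of odd order. (3) It holds for all finite abelian groups with a
transversal, in particular for `B × B`, `B` abelian. (4) A finite group with this property has a chain of rank `n - 1`
if and only if it is non-abelian. -/
theorem result :
    (∀ (G : Type u) [Group G] [Finite G], Odd (Nat.card G) → Group.IsSolvable G → AllPairs G) ∧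
    (∀ (G : Type u) [Group G] [Finite G] (N : Subgroup G) [N.Normal], Odd (Nat.card (G ⧸ N)) →
      Group.IsSolvable (G ⧸ N) → AllPairs N → AllPairs G) ∧
    (∀ (B : Type u) [CommGroup B] [Finite B], (∃ θ : Equiv.Perm B, IsTransversal θ) → AllPairs B) ∧
    (∀ (B : Type u) [CommGroup B] [Finite B], AllPairs (B × B)) ∧
    (∀ (G : Type u) [Group G] [Finite G], AllPairs G →
      ((∃ θ : Equiv.Perm G, (Set.range fun x : G => x * θ x).ncard = Nat.card G - 1) ↔
        ¬ ∀ a b : G, a * b = b * a)) := by
  have h2 : ∀ (G : Type u) [Group G] [Finite G] (N : Subgroup G) [N.Normal], Odd (Nat.card (G ⧸ N)) →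
      Group.IsSolvable (G ⧸ N) → AllPairs N → AllPairs G := by
    intro G _ _ N _ h1 h2 h3
    rw [allPairs_iff] at h3 ⊢
    exact ind G N h1 h2 h3
  refine ⟨fun G _ _ hodd hsol => ?_, h2, fun B _ _ h => abelian B h,
    fun B _ _ => abelian (B × B) (Pool.Agent.Y151.NCH.t_SQU B), fun G _ _ h => ?_⟩
  · haveI := hsol
    have hs : Group.IsSolvable (G ⧸ (⊥ : Subgroup G)) := inferInstance
    refine h2 G ⊥ ?_ hs ?_
    · exact Odd.of_dvd_nat hodd (Subgroup.card_quotient_dvd_card _)
    · rw [allPairs_iff]
      intro a b _
      have : a = b := Subsingleton.elim _ _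
      subst this
      refine ⟨1, a, Subsingleton.elim _ _, ?_⟩
      exact ⟨fun _ _ _ => Subsingleton.elim _ _, fun z => ⟨z, Subsingleton.elim _ _⟩⟩
  · rw [allPairs_iff] at h
    rw [Pool.Agent.Y484.NCH.t_RNK G]
    have h1 : Near G 1 1 := h 1 1 (by simp [Subgroup.one_mem])
    constructor
    · rintro ⟨a, b, hne, hab⟩ hcomm
      have h3 := Pool.Agent.Y662.NCH.t_NEC G a b h1 hab
      have h0 : commutator G = ⊥ := by
        rw [commutator_def, Subgroup.commutator_eq_bot_iff_le_centralizer]
        intro x _
        rw [Subgroup.mem_centralizer_iff]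
        intro y _
        exact hcomm y x
      rw [h0, Subgroup.mem_bot] at h3
      exact hne (mul_inv_eq_one.1 h3)
    · intro hG
      push Not at hG
      obtain ⟨a, b, hab⟩ := hG
      refine ⟨a * b * (b * a)⁻¹, 1, fun h4 => hab (mul_inv_eq_one.1 h4), h _ _ ?_⟩
      have e : a * b * (b * a)⁻¹ * 1⁻¹ = a * b * a⁻¹ * b⁻¹ := by group
      rw [e, ← commutatorElement_def, commutator_def]
      exact Subgroup.commutator_mem_commutator (Subgroup.mem_top a) (Subgroup.mem_top b)

end Pool.Agent.Results.MP_053bca_co.RepeatedAndMissing
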